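import Mathlib

/-!
Typically real functions: the coefficient bound and its consequence for the remainder of order two.
-/

namespace Pool.Agent.Helper909_ice

open Complex MeasureTheory Metric Set
open scoped Real ComplexConjugate

lemma abs_sin_nat_mul_le (n : ℕ) (θ : ℝ) : |Real.sin (n * θ)| ≤ n * |Real.sin θ| := by
  induction n with
  | zero => simp
  | succ n ih =>
    have h : Real.sin (((n + 1 : ℕ) : ℝ) * θ) =
        Real.sin (n * θ) * Real.cos θ + Real.cos (n * θ) * Real.sin θ := by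
      push_cast
      rw [add_mul, one_mul, Real.sin_add]
    rw [h]
    have h1 : |Real.sin (n * θ) * Real.cos θ| ≤ |Real.sin (n * θ)| := by
      rw [abs_mul]
      exact mul_le_of_le_one_right (abs_nonneg _) (Real.abs_cos_le_one θ)
    have h2 : |Real.cos (n * θ) * Real.sin θ| ≤ |Real.sin θ| := by
      rw [abs_mul]
      exact mul_le_of_le_one_left (abs_nonneg _) (Real.abs_cos_le_one _)
    have h3 := abs_add_le (Real.sin (n * θ) * Real.cos θ) (Real.cos (n * θ) * Real.sin θ)
    push_cast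
    linarith

section

variable {r : ℝ} {g : ℂ → ℂ}

private lemma mem_cb (hr : 0 < r) (θ : ℝ) : circleMap 0 r θ ∈ closedBall (0 : ℂ) r :=
  circleMap_mem_closedBall 0 hr.le θ

private lemma u_cont (hr : 0 < r) (hg : ∀ z ∈ closedBall (0 : ℂ) r, DifferentiableAt ℂ g z) :
    Continuous (fun θ : ℝ => g (circleMap 0 r θ)) := by
  rw [continuous_iff_continuousAt]
  intro θ
  exact ContinuousAt.comp (g := g) (hg _ (mem_cb hr θ)).continuousAt
    (continuous_circleMap 0 r).continuousAt

/-- Taylor coefficients -/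
private noncomputable def co (r : ℝ) (g : ℂ → ℂ) (n : ℕ) : ℂ :=
  (2 * π : ℂ)⁻¹ * ∫ θ in (0 : ℝ)..2 * π, ((circleMap 0 r θ)⁻¹) ^ n * g (circleMap 0 r θ)

private lemma cm_ne (hr : 0 < r) (θ : ℝ) : circleMap 0 r θ ≠ 0 := circleMap_ne_center hr.ne'

private lemma two_pi_ne : (2 * π : ℂ) ≠ 0 := by
  have : (π : ℂ) ≠ 0 := by exact_mod_cast Real.pi_ne_zero
  simp [this]

private lemma hasSum_co (hr : 0 < r) (hg : ∀ z ∈ closedBall (0 : ℂ) r, DifferentiableAt ℂ g z)
    {w : ℂ} (hw : ‖w‖ < r) : HasSum (fun n => w ^ n * co r g n) (g w) := by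
  have hdiff : DiffContOnCl ℂ g (ball 0 r) := by
    refine DifferentiableOn.diffContOnCl ?_
    rw [closure_ball 0 hr.ne']
    exact fun z hz => (hg z hz).differentiableWithinAt
  have hci : CircleIntegrable g 0 r := by
    refine ContinuousOn.circleIntegrable hr.le ?_
    exact fun z hz => (hg z (sphere_subset_closedBall hz)).continuousAt.continuousWithinAt
  have h1 := hasSum_two_pi_I_cauchyPowerSeries_integral hci hw
  have h2 := hdiff.two_pi_i_inv_smul_circleIntegral_sub_inv_smul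
    (show w ∈ ball (0 : ℂ) r by simpa using hw)
  have h3 := h1.mul_left ((2 * π * I : ℂ)⁻¹)
  simp only [zero_add, sub_zero, smul_eq_mul] at h3 h2
  rw [h2] at h3
  have e0 : (fun n => w ^ n * co r g n) =
      (fun i => (2 * ↑π * I)⁻¹ * ∮ (z : ℂ) in C(0, r), (w / z) ^ i * (z⁻¹ * g z)) := by
   funext n
   unfold co circleIntegral
   simp only [deriv_circleMap, smul_eq_mul]
   have e : ∀ θ : ℝ, circleMap 0 r θ * I * ((w / circleMap 0 r θ) ^ n *
       ((circleMap 0 r θ)⁻¹ * g (circleMap 0 r θ))) =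
       (I * w ^ n) * (((circleMap 0 r θ)⁻¹) ^ n * g (circleMap 0 r θ)) := by
     intro θ
     have := cm_ne hr θ
     rw [div_eq_mul_inv, mul_pow]
     field_simp
   simp only [e]
   rw [intervalIntegral.integral_const_mul]
   have := two_pi_ne
   have hI : (I : ℂ) ≠ 0 := I_ne_zero
   have hp : (π : ℂ) ≠ 0 := by exact_mod_cast Real.pi_ne_zero
   field_simp
  rw [e0]
  exact h3

private lemma circleMap_zero_eq (r θ : ℝ) : circleMap 0 r θ = r * Complex.exp (θ * I) := by
  simp [circleMap]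

private lemma int_zero (hr : 0 < r) (hg : ∀ z ∈ closedBall (0 : ℂ) r, DifferentiableAt ℂ g z)
    (n : ℕ) (hn : 1 ≤ n) :
    ∫ θ in (0 : ℝ)..2 * π, Complex.exp (n * θ * I) * g (circleMap 0 r θ) = 0 := by
  have hdiff : DiffContOnCl ℂ (fun z => z ^ (n - 1) * g z) (ball 0 r) := by
    refine DifferentiableOn.diffContOnCl ?_
    rw [closure_ball 0 hr.ne']
    exact fun z hz => ((differentiableAt_id.pow _).mul (hg z hz)).differentiableWithinAt
  have h := hdiff.circleIntegral_eq_zero hr.le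
  unfold circleIntegral at h
  simp only [deriv_circleMap, smul_eq_mul] at h
  have e : ∀ θ : ℝ, circleMap 0 r θ * I * (circleMap 0 r θ ^ (n - 1) * g (circleMap 0 r θ)) =
      (I * (r : ℂ) ^ n) * (Complex.exp (n * θ * I) * g (circleMap 0 r θ)) := by
    intro θ
    have h1 : circleMap 0 r θ * circleMap 0 r θ ^ (n - 1) = circleMap 0 r θ ^ n := by
      rw [← pow_succ']; congr 1; omega
    calc circleMap 0 r θ * I * (circleMap 0 r θ ^ (n - 1) * g (circleMap 0 r θ))
        = I * (circleMap 0 r θ * circleMap 0 r θ ^ (n - 1)) * g (circleMap 0 r θ) := by ring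
      _ = _ := by
        rw [h1, circleMap_zero_eq, mul_pow, ← Complex.exp_nat_mul]
        ring_nf
  simp only [e] at h
  rw [intervalIntegral.integral_const_mul] at h
  have hr' : (r : ℂ) ≠ 0 := by exact_mod_cast hr.ne'
  rcases mul_eq_zero.1 h with h | h
  · exact absurd h (mul_ne_zero I_ne_zero (pow_ne_zero _ hr'))
  · exact h

private lemma co_eq (hr : 0 < r) (hg : ∀ z ∈ closedBall (0 : ℂ) r, DifferentiableAt ℂ g z)
    (hconj : ∀ z ∈ closedBall (0 : ℂ) r, g (conj z) = conj (g z)) (n : ℕ) (hn : 1 ≤ n) :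
    (r : ℂ) ^ n * co r g n =
      (((1 / π) * ∫ θ in (0 : ℝ)..2 * π, (g (circleMap 0 r θ)).im * Real.sin (n * θ) : ℝ) : ℂ) := by
  have hc := u_cont hr hg
  have hr' : (r : ℂ) ≠ 0 := by exact_mod_cast hr.ne'
  have hp : (π : ℂ) ≠ 0 := by exact_mod_cast Real.pi_ne_zero
  -- first form
  have hA : (r : ℂ) ^ n * co r g n = (2 * π : ℂ)⁻¹ *
      ∫ θ in (0 : ℝ)..2 * π, Complex.exp (-(n * θ * I)) * g (circleMap 0 r θ) := by
    unfold co
    have e : ∀ θ : ℝ, ((circleMap 0 r θ)⁻¹) ^ n * g (circleMap 0 r θ) =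
        ((r : ℂ) ^ n)⁻¹ * (Complex.exp (-(n * θ * I)) * g (circleMap 0 r θ)) := by
      intro θ
      rw [inv_pow, circleMap_zero_eq, mul_pow, mul_inv, ← Complex.exp_nat_mul, Complex.exp_neg]
      ring_nf
    simp only [e]
    rw [intervalIntegral.integral_const_mul, ← mul_assoc, mul_comm ((r : ℂ) ^ n) ((2 * π : ℂ)⁻¹),
      mul_assoc, ← mul_assoc ((r : ℂ) ^ n), mul_inv_cancel₀ (pow_ne_zero _ hr'), one_mul]
  have hB := int_zero hr hg n hn
  have hB' : ∫ θ in (0 : ℝ)..2 * π, Complex.exp (-(n * θ * I)) * conj (g (circleMap 0 r θ)) = 0 := by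
    have := congrArg conj hB
    rw [map_zero, ← intervalIntegral.intervalIntegral_conj] at this
    refine Eq.trans ?_ this
    congr 1
    funext θ
    rw [map_mul, ← Complex.exp_conj]
    simp
  have hi1 : IntervalIntegrable (fun θ : ℝ => Complex.exp (-(n * θ * I)) * g (circleMap 0 r θ))
      volume 0 (2 * π) := by
    apply Continuous.intervalIntegrable
    exact Continuous.mul (by fun_prop) hc
  have hi2 : IntervalIntegrable
      (fun θ : ℝ => Complex.exp (-(n * θ * I)) * conj (g (circleMap 0 r θ)))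
      volume 0 (2 * π) := by
    apply Continuous.intervalIntegrable
    exact Continuous.mul (by fun_prop) (continuous_conj.comp hc)
  have hD : ∫ θ in (0 : ℝ)..2 * π, Complex.exp (-(n * θ * I)) * g (circleMap 0 r θ) =
      ∫ θ in (0 : ℝ)..2 * π, (2 * I) * ((Real.cos (n * θ) * (g (circleMap 0 r θ)).im : ℝ) : ℂ) +
        2 * (((g (circleMap 0 r θ)).im * Real.sin (n * θ) : ℝ) : ℂ) := by
    have hs := intervalIntegral.integral_sub hi1 hi2
    rw [hB', sub_zero] at hs
    rw [← hs]
    congr 1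
    funext θ
    rw [← mul_sub, Complex.sub_conj]
    have e1 : Complex.exp (-(n * θ * I)) = ((Real.cos (n * θ) : ℝ) : ℂ) -
        ((Real.sin (n * θ) : ℝ) : ℂ) * I := by
      have : (-(n * θ * I) : ℂ) = ((-(n * θ) : ℝ) : ℂ) * I := by push_cast; ring
      rw [this, Complex.exp_mul_I, ← Complex.ofReal_cos, ← Complex.ofReal_sin, Real.cos_neg,
        Real.sin_neg]
      push_cast; ring
    rw [e1]
    push_cast
    ring_nf
    rw [I_sq]
    ring
  have hC : ∫ θ in (0 : ℝ)..2 * π, Real.cos (n * θ) * (g (circleMap 0 r θ)).im = 0 := by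
    have h1 := intervalIntegral.integral_comp_sub_left
      (fun θ => Real.cos (n * θ) * (g (circleMap 0 r θ)).im) (2 * π) (a := 0) (b := 2 * π)
    simp only [sub_self, sub_zero] at h1
    have e : ∀ θ : ℝ, Real.cos (n * (2 * π - θ)) * (g (circleMap 0 r (2 * π - θ))).im =
        -(Real.cos (n * θ) * (g (circleMap 0 r θ)).im) := by
      intro θ
      have c1 : Real.cos (n * (2 * π - θ)) = Real.cos (n * θ) := by
        rw [mul_sub, Real.cos_nat_mul_two_pi_sub]
      have c2 : circleMap 0 r (2 * π - θ) = conj (circleMap 0 r θ) := by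
        rw [circleMap_zero_eq, circleMap_zero_eq, map_mul, ← Complex.exp_conj, Complex.conj_ofReal]
        congr 1
        rw [map_mul, Complex.conj_ofReal, Complex.conj_I]
        rw [show ((2 * π - θ : ℝ) : ℂ) * I = 2 * π * I + θ * -I by push_cast; ring,
          Complex.exp_add, Complex.exp_two_pi_mul_I, one_mul]
      rw [c1, c2, hconj _ (mem_cb hr θ), Complex.conj_im]
      ring
    simp only [e, intervalIntegral.integral_neg] at h1
    linarith
  rw [hA, hD, intervalIntegral.integral_add, intervalIntegral.integral_const_mul,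
    intervalIntegral.integral_const_mul, intervalIntegral.integral_ofReal,
    intervalIntegral.integral_ofReal, hC]
  · push_cast
    field_simp
    ring
  · apply Continuous.intervalIntegrable
    have := Complex.continuous_im.comp hc
    simp only [Function.comp_def] at this
    fun_prop
  · apply Continuous.intervalIntegrable
    have := Complex.continuous_im.comp hc
    simp only [Function.comp_def] at this
    fun_prop

private lemma co_bound (hr : 0 < r) (hg : ∀ z ∈ closedBall (0 : ℂ) r, DifferentiableAt ℂ g z)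
    (hconj : ∀ z ∈ closedBall (0 : ℂ) r, g (conj z) = conj (g z))
    (him : ∀ z ∈ closedBall (0 : ℂ) r, 0 ≤ (g z).im * z.im) (n : ℕ) (hn : 1 ≤ n) :
    r ^ n * ‖co r g n‖ ≤ n * (r * (co r g 1).re) := by
  have hc := u_cont hr hg
  have hci : Continuous (fun θ : ℝ => (g (circleMap 0 r θ)).im) := Complex.continuous_im.comp hc
  have h1 := co_eq hr hg hconj n hn
  have h2 := co_eq hr hg hconj 1 le_rfl
  have e1 : r ^ n * ‖co r g n‖ = ‖(r : ℂ) ^ n * co r g n‖ := by
    rw [norm_mul, norm_pow, Complex.norm_real, Real.norm_eq_abs, abs_of_pos hr]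
  have e2 : r * (co r g 1).re = ((r : ℂ) ^ 1 * co r g 1).re := by
    rw [pow_one, Complex.re_ofReal_mul]
  rw [e1, e2, h1, h2, Complex.ofReal_re, Complex.norm_real, Real.norm_eq_abs, abs_mul,
    abs_of_pos (by positivity : (0 : ℝ) < 1 / π), mul_left_comm]
  refine mul_le_mul_of_nonneg_left ?_ (by positivity)
  have hpi : (0 : ℝ) ≤ 2 * π := by positivity
  refine (intervalIntegral.abs_integral_le_integral_abs hpi).trans ?_
  rw [← intervalIntegral.integral_const_mul]
  refine intervalIntegral.integral_mono_on hpi ?_ ?_ (fun θ _ => ?_)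
  · apply Continuous.intervalIntegrable
    exact (hci.mul (by fun_prop)).abs
  · apply Continuous.intervalIntegrable
    exact continuous_const.mul (hci.mul (by fun_prop))
  · have hs := abs_sin_nat_mul_le n θ
    have him' := him _ (mem_cb hr θ)
    have e3 : (circleMap 0 r θ).im = r * Real.sin θ := by
      rw [circleMap_zero_eq, Complex.im_ofReal_mul, Complex.exp_ofReal_mul_I_im]
    rw [e3] at him'
    have h4 : 0 ≤ (g (circleMap 0 r θ)).im * Real.sin θ := by
      have : (g (circleMap 0 r θ)).im * (r * Real.sin θ) =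
        r * ((g (circleMap 0 r θ)).im * Real.sin θ) := by ring
      rw [this] at him'
      exact nonneg_of_mul_nonneg_right him' hr
    rw [abs_mul, Nat.cast_one, one_mul]
    calc |(g (circleMap 0 r θ)).im| * |Real.sin (n * θ)|
        ≤ |(g (circleMap 0 r θ)).im| * (n * |Real.sin θ|) :=
          mul_le_mul_of_nonneg_left hs (abs_nonneg _)
      _ = n * |(g (circleMap 0 r θ)).im * Real.sin θ| := by rw [abs_mul]; ring
      _ = n * ((g (circleMap 0 r θ)).im * Real.sin θ) := by rw [abs_of_nonneg h4]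

private lemma co_zero (hr : 0 < r) (hg : ∀ z ∈ closedBall (0 : ℂ) r, DifferentiableAt ℂ g z) :
    co r g 0 = g 0 := by
  have h := hasSum_co hr hg (w := 0) (by simpa using hr)
  have h2 : HasSum (fun n : ℕ => (0 : ℂ) ^ n * co r g n) (co r g 0) := by
    have := hasSum_single (f := fun n : ℕ => (0 : ℂ) ^ n * co r g n) 0 (fun n hn => by simp [hn])
    simpa using this
  exact h2.unique h

/-- Typically real functions are close to their linear part. -/
theorem typreal (hr : 0 < r) (hg : ∀ z ∈ closedBall (0 : ℂ) r, DifferentiableAt ℂ g z)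
    (hconj : ∀ z ∈ closedBall (0 : ℂ) r, g (conj z) = conj (g z))
    (him : ∀ z ∈ closedBall (0 : ℂ) r, 0 ≤ (g z).im * z.im) :
    ∃ c : ℝ, 0 ≤ c ∧ ∀ z : ℂ, ‖z‖ ≤ r / 2 → ‖g z - g 0 - z * c‖ ≤ 8 * c * ‖z‖ ^ 2 / r := by
  have h2 := co_eq hr hg hconj 1 le_rfl
  have hr' : (r : ℂ) ≠ 0 := by exact_mod_cast hr.ne'
  have hc1 : co r g 1 = ((co r g 1).re : ℂ) := by
    rw [pow_one] at h2
    have : co r g 1 = (((1 / r) * ((1 / π) * ∫ θ in (0 : ℝ)..2 * π,
        (g (circleMap 0 r θ)).im * Real.sin ((1 : ℕ) * θ)) : ℝ) : ℂ) := by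
      rw [Complex.ofReal_mul, ← h2]
      push_cast
      field_simp
    rw [this, Complex.ofReal_re]
  have hb := fun n hn => co_bound hr hg hconj him n hn
  have hc0 : 0 ≤ (co r g 1).re := by
    have := hb 1 le_rfl
    rw [pow_one, Nat.cast_one, one_mul] at this
    have h3 : 0 ≤ r * (co r g 1).re := le_trans (by positivity) this
    exact nonneg_of_mul_nonneg_right h3 hr
  refine ⟨(co r g 1).re, hc0, fun z hz => ?_⟩
  have hzr : ‖z‖ < r := by linarith
  have hs := hasSum_co hr hg hzr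
  have hs2 := (hasSum_nat_add_iff' 2).2 hs
  simp only [Finset.sum_range_succ, Finset.sum_range_zero, zero_add, pow_zero, one_mul, pow_one]
    at hs2
  rw [co_zero hr hg, hc1] at hs2
  have e0 : g z - g 0 - z * ((co r g 1).re : ℂ) = g z - (g 0 + z * ((co r g 1).re : ℂ)) := by ring
  rw [e0]
  set ρ : ℝ := ‖z‖ / r with hρ
  have hρ0 : 0 ≤ ρ := by positivity
  have hρ1 : ρ ≤ 1 / 2 := by
    rw [hρ, div_le_iff₀ hr]; linarith
  set c : ℝ := (co r g 1).re with hcdef
  -- termwise bound
  have hterm : ∀ n : ℕ, ‖z ^ (n + 2) * co r g (n + 2)‖ ≤ c * r * ρ ^ 2 * (((n : ℝ) + 2) * ρ ^ n) := by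
    intro n
    have h3 := hb (n + 2) (by omega)
    have hrn : 0 < r ^ (n + 2) := by positivity
    have h4 : ‖co r g (n + 2)‖ ≤ ((n + 2 : ℕ) : ℝ) * (r * c) / r ^ (n + 2) := by
      rw [le_div_iff₀ hrn, mul_comm]; exact h3
    calc ‖z ^ (n + 2) * co r g (n + 2)‖ = ‖z‖ ^ (n + 2) * ‖co r g (n + 2)‖ := by
          rw [norm_mul, norm_pow]
      _ ≤ ‖z‖ ^ (n + 2) * (((n + 2 : ℕ) : ℝ) * (r * c) / r ^ (n + 2)) :=
          mul_le_mul_of_nonneg_left h4 (by positivity)
      _ = c * r * ρ ^ 2 * (((n : ℝ) + 2) * ρ ^ n) := by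
          rw [hρ]; push_cast
          rw [div_pow, div_pow]
          field_simp
          ring
  have hgeo : HasSum (fun n : ℕ => ρ ^ n) (1 - ρ)⁻¹ := hasSum_geometric_of_lt_one hρ0 (by linarith)
  have hgeo2 : HasSum (fun n : ℕ => (n : ℝ) * ρ ^ n) (ρ / (1 - ρ) ^ 2) :=
    hasSum_coe_mul_geometric_of_norm_lt_one (by
      rw [Real.norm_eq_abs, abs_of_nonneg hρ0]; linarith)
  have hgeo3 : HasSum (fun n : ℕ => ((n : ℝ) + 2) * ρ ^ n) (ρ / (1 - ρ) ^ 2 + 2 * (1 - ρ)⁻¹) := by
    have h5 := hgeo2.add (hgeo.mul_left 2)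
    have e : (fun n : ℕ => ((n : ℝ) + 2) * ρ ^ n) = fun n : ℕ => (n : ℝ) * ρ ^ n + 2 * ρ ^ n := by
      funext n; ring
    rw [e]; exact h5
  have hfin := HasSum.norm_le_of_bounded hs2 (hgeo3.mul_left (c * r * ρ ^ 2)) hterm
  refine hfin.trans ?_
  have h6 : ρ / (1 - ρ) ^ 2 + 2 * (1 - ρ)⁻¹ ≤ 8 := by
    have h7 : 0 < 1 - ρ := by linarith
    have e : ρ / (1 - ρ) ^ 2 + 2 * (1 - ρ)⁻¹ = (2 - ρ) / (1 - ρ) ^ 2 := by
      field_simp
      ring
    rw [e, div_le_iff₀ (by positivity)]
    nlinarith [sq_nonneg (1 - 2 * ρ)]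
  calc c * r * ρ ^ 2 * (ρ / (1 - ρ) ^ 2 + 2 * (1 - ρ)⁻¹) ≤ c * r * ρ ^ 2 * 8 :=
        mul_le_mul_of_nonneg_left h6 (by positivity)
    _ = 8 * c * ‖z‖ ^ 2 / r := by
        rw [hρ]; field_simp

end

end Pool.Agent.Helper909_ice
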