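import Pool.Agent.Helper909_ice.Good
import Pool.Agent.Helper909_ice.TypReal

/-!
Centred exponential sums with the zero-free strip property are close to Gaussian.
-/

namespace Pool.Agent.Helper909_ice

open Complex MeasureTheory Metric Set
open scoped Real ComplexConjugate Topology

section

variable {ι : Type*} (s : Finset ι) (c : ι → ℝ)

/-- exponential sum with real frequencies -/
noncomputable def Mx (z : ℂ) : ℂ := ∑ i ∈ s, cexp (z * c i)

lemma Mx_hasDerivAt (z : ℂ) : HasDerivAt (Mx s c) (∑ i ∈ s, (c i : ℂ) * cexp (z * c i)) z := by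
  unfold Mx
  refine HasDerivAt.fun_sum (fun i _ => ?_)
  have h : HasDerivAt (fun z : ℂ => z * (c i : ℂ)) (c i : ℂ) z := by
    simpa using (hasDerivAt_id z).mul_const (c i : ℂ)
  exact h.cexp.congr_deriv (mul_comm _ _)

lemma Mx'_hasDerivAt (z : ℂ) : HasDerivAt (fun z => ∑ i ∈ s, (c i : ℂ) * cexp (z * c i))
    (∑ i ∈ s, (c i : ℂ) ^ 2 * cexp (z * c i)) z := by
  refine HasDerivAt.fun_sum (fun i _ => ?_)
  have h : HasDerivAt (fun z : ℂ => z * (c i : ℂ)) (c i : ℂ) z := by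
    simpa using (hasDerivAt_id z).mul_const (c i : ℂ)
  exact (h.cexp.const_mul (c i : ℂ)).congr_deriv (by ring)

lemma Mx_conj (z : ℂ) : Mx s c (conj z) = conj (Mx s c z) := by
  simp only [Mx, map_sum, ← Complex.exp_conj, map_mul, Complex.conj_ofReal]

lemma Mx'_conj (z : ℂ) : ∑ i ∈ s, (c i : ℂ) * cexp (conj z * c i) =
    conj (∑ i ∈ s, (c i : ℂ) * cexp (z * c i)) := by
  simp only [map_sum, ← Complex.exp_conj, map_mul, Complex.conj_ofReal]

/-- logarithmic derivative -/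
noncomputable def gx (z : ℂ) : ℂ := (∑ i ∈ s, (c i : ℂ) * cexp (z * c i)) / Mx s c z

variable {s c}

lemma gx_im {w : ℝ} (hgood : ∀ x : ℝ, AntitoneOn (fun y : ℝ => normSq (Mx s c (x + y * I)))
    (Icc 0 w)) {x y : ℝ} (hy0 : 0 < y) (hyw : y < w) : 0 ≤ (gx s c (x + y * I)).im := by
  set z : ℂ := x + y * I with hz
  have hderiv : HasDerivAt (fun y : ℝ => Mx s c (x + y * I))
      ((∑ i ∈ s, (c i : ℂ) * cexp (z * c i)) * I) y := by
    have h1 : HasDerivAt (fun y : ℝ => (x : ℂ) + (y : ℂ) * I) I y := by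
      have := ((Complex.ofRealCLM.hasDerivAt (x := y)).mul_const I).const_add (x : ℂ)
      simpa using this
    have h2 := (Mx_hasDerivAt s c z)
    exact HasDerivAt.comp (h₂ := Mx s c) y (by rw [← hz]; exact h2) h1
  have hre : HasDerivAt (fun y : ℝ => (Mx s c (x + y * I)).re)
      ((∑ i ∈ s, (c i : ℂ) * cexp (z * c i)) * I).re y :=
    (Complex.reCLM.hasFDerivAt.comp_hasDerivAt y hderiv)
  have him : HasDerivAt (fun y : ℝ => (Mx s c (x + y * I)).im)
      ((∑ i ∈ s, (c i : ℂ) * cexp (z * c i)) * I).im y :=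
    (Complex.imCLM.hasFDerivAt.comp_hasDerivAt y hderiv)
  have hns : HasDerivAt (fun y : ℝ => normSq (Mx s c (x + y * I)))
      (2 * ((Mx s c z).re * ((∑ i ∈ s, (c i : ℂ) * cexp (z * c i)) * I).re +
        (Mx s c z).im * ((∑ i ∈ s, (c i : ℂ) * cexp (z * c i)) * I).im)) y := by
    have h3 := (hre.mul hre).add (him.mul him)
    have e : (fun y : ℝ => normSq (Mx s c (x + y * I))) =
        (fun y : ℝ => (Mx s c (x + y * I)).re * (Mx s c (x + y * I)).re +
          (Mx s c (x + y * I)).im * (Mx s c (x + y * I)).im) := by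
      funext y; rw [normSq_apply]
    rw [e]
    refine h3.congr_deriv ?_
    rw [← hz]; ring
  have hle : 2 * ((Mx s c z).re * ((∑ i ∈ s, (c i : ℂ) * cexp (z * c i)) * I).re +
        (Mx s c z).im * ((∑ i ∈ s, (c i : ℂ) * cexp (z * c i)) * I).im) ≤ 0 := by
    have hw : derivWithin (fun y : ℝ => normSq (Mx s c (x + y * I))) (Icc 0 w) y ≤ 0 :=
      (hgood x).derivWithin_nonpos
    rwa [hns.hasDerivWithinAt.derivWithin
      ((uniqueDiffOn_Icc (hy0.trans hyw)) y ⟨hy0.le, hyw.le⟩)] at hw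
  have e2 : (gx s c z).im = -((Mx s c z).re * ((∑ i ∈ s, (c i : ℂ) * cexp (z * c i)) * I).re +
        (Mx s c z).im * ((∑ i ∈ s, (c i : ℂ) * cexp (z * c i)) * I).im) / normSq (Mx s c z) := by
    unfold gx
    rw [div_im]
    simp only [mul_re, mul_im, I_re, I_im]
    ring
  rw [e2]
  apply div_nonneg _ (normSq_nonneg _)
  linarith

/-- closeness to the Gaussian -/
theorem expsum_gauss (hs : s.Nonempty) (hmean : ∑ i ∈ s, c i = 0) {w : ℝ} (hw : 0 < w)
    (hgood : ∀ x : ℝ, AntitoneOn (fun y : ℝ => normSq (Mx s c (x + y * I))) (Icc 0 w))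
    (hne : ∀ x y : ℝ, 0 ≤ y → y ≤ w → Mx s c (x + y * I) ≠ 0) {z : ℂ} (hz : ‖z‖ ≤ w / 4) :
    ‖Mx s c z / s.card * cexp (-(z ^ 2 * ((∑ i ∈ s, c i ^ 2) / s.card : ℝ) / 2)) - 1‖ ≤
      Real.exp (16 * ((∑ i ∈ s, c i ^ 2) / s.card) * ‖z‖ ^ 3 / w) - 1 := by
  set v : ℝ := (∑ i ∈ s, c i ^ 2) / s.card with hv
  set r : ℝ := w / 2 with hr
  have hr0 : 0 < r := by positivity
  have hcard : (s.card : ℂ) ≠ 0 := by
    exact_mod_cast hs.card_pos.ne'
  have hne' : ∀ z ∈ closedBall (0 : ℂ) r, Mx s c z ≠ 0 := by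
    intro z hz
    have hz1 : |z.im| ≤ r := (Complex.abs_im_le_norm z).trans (by simpa using hz)
    rcases le_total 0 z.im with h | h
    · have := hne z.re z.im h (by rw [abs_of_nonneg h] at hz1; linarith)
      rwa [Complex.re_add_im] at this
    · have := hne z.re (-z.im) (by linarith) (by rw [abs_of_nonpos h] at hz1; linarith)
      have e : (z.re : ℂ) + ((-z.im : ℝ) : ℂ) * I = conj z := by
        apply Complex.ext <;> simp
      rw [e, Mx_conj] at this
      intro h0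
      rw [h0] at this
      simp at this
  have hM0 : Mx s c 0 = s.card := by simp [Mx]
  have hg0 : gx s c 0 = 0 := by
    unfold gx
    have : ∑ i ∈ s, (c i : ℂ) * cexp (0 * c i) = ((∑ i ∈ s, c i : ℝ) : ℂ) := by
      push_cast; simp
    rw [this, hmean]; simp
  have hgd : ∀ z ∈ closedBall (0 : ℂ) r, DifferentiableAt ℂ (gx s c) z := by
    intro z hz
    exact (Mx'_hasDerivAt s c z).differentiableAt.div (Mx_hasDerivAt s c z).differentiableAt
      (hne' z hz)
  have hgconj : ∀ z : ℂ, gx s c (conj z) = conj (gx s c z) := by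
    intro z
    unfold gx
    rw [Mx'_conj, Mx_conj, map_div₀]
  have hgim : ∀ z ∈ closedBall (0 : ℂ) r, 0 ≤ (gx s c z).im * z.im := by
    intro z hz
    have hz1 : |z.im| ≤ r := (Complex.abs_im_le_norm z).trans (by simpa using hz)
    rcases lt_trichotomy z.im 0 with h | h | h
    · have h1 := gx_im hgood (x := z.re) (y := -z.im) (by linarith)
        (by rw [abs_of_neg h] at hz1; linarith)
      have e : (z.re : ℂ) + ((-z.im : ℝ) : ℂ) * I = conj z := by
        apply Complex.ext <;> simp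
      rw [e, hgconj, Complex.conj_im] at h1
      nlinarith
    · rw [h, mul_zero]
    · have h1 := gx_im hgood (x := z.re) (y := z.im) h
        (by rw [abs_of_pos h] at hz1; linarith)
      rw [Complex.re_add_im] at h1
      exact mul_nonneg h1 h.le
  obtain ⟨k, hk0, hk⟩ := typreal hr0 hgd (fun z _ => hgconj z) hgim
  have hkv : k = v := by
    have h1 : HasDerivAt (gx s c) (v : ℂ) 0 := by
      have h2 := (Mx'_hasDerivAt s c 0).div (Mx_hasDerivAt s c 0) (hne' 0 (by simp [hr0.le]))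
      refine h2.congr_deriv ?_
      have e1 : ∑ i ∈ s, (c i : ℂ) * cexp (0 * c i) = ((∑ i ∈ s, c i : ℝ) : ℂ) := by
        push_cast; simp
      have e2 : ∑ i ∈ s, (c i : ℂ) ^ 2 * cexp (0 * c i) = ((∑ i ∈ s, c i ^ 2 : ℝ) : ℂ) := by
        push_cast; simp
      rw [e1, e2, hmean, hM0, hv]
      push_cast
      field_simp
      ring
    have h3 := h1.tendsto_slope_zero
    have h4 : Filter.Tendsto (fun t : ℂ => t⁻¹ • (gx s c (0 + t) - gx s c 0)) (𝓝[≠] 0)
        (𝓝 (k : ℂ)) := by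
      rw [tendsto_iff_norm_sub_tendsto_zero]
      refine squeeze_zero' (Filter.Eventually.of_forall fun _ => norm_nonneg _)
        (g := fun t : ℂ => 8 * k * ‖t‖ / r) ?_ ?_
      · have h5 : ∀ᶠ t : ℂ in 𝓝[≠] 0, ‖t‖ ≤ r / 2 := by
          apply nhdsWithin_le_nhds
          have : closedBall (0 : ℂ) (r / 2) ∈ 𝓝 (0 : ℂ) := closedBall_mem_nhds _ (by positivity)
          filter_upwards [this] with t ht
          simpa using ht
        filter_upwards [h5, self_mem_nhdsWithin] with t ht ht0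
        have ht0' : t ≠ 0 := ht0
        have ht0n : 0 < ‖t‖ := norm_pos_iff.2 ht0'
        have h6 := hk t ht
        have e : t⁻¹ • (gx s c (0 + t) - gx s c 0) - (k : ℂ) =
            t⁻¹ * (gx s c t - gx s c 0 - t * k) := by
          rw [zero_add, smul_eq_mul]
          field_simp
        rw [e, norm_mul, norm_inv]
        calc ‖t‖⁻¹ * ‖gx s c t - gx s c 0 - t * k‖ ≤ ‖t‖⁻¹ * (8 * k * ‖t‖ ^ 2 / r) :=
              mul_le_mul_of_nonneg_left h6 (by positivity)
          _ = 8 * k * ‖t‖ / r := by field_simp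
      · have : Filter.Tendsto (fun t : ℂ => 8 * k * ‖t‖ / r) (𝓝 0) (𝓝 (8 * k * ‖(0 : ℂ)‖ / r)) :=
          Continuous.tendsto (by fun_prop) 0
        simp only [norm_zero, mul_zero, zero_div] at this
        exact this.mono_left nhdsWithin_le_nhds
    have := tendsto_nhds_unique h3 h4
    exact_mod_cast this.symm
  rw [hg0, hkv] at hk
  simp only [sub_zero] at hk
  rw [hkv] at hk0
  -- Gronwall
  set Φ : ℂ → ℂ := fun z => Mx s c z / s.card * cexp (-(z ^ 2 * v / 2)) with hΦ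
  have hΦ0 : Φ 0 = 1 := by
    simp only [hΦ, hM0]
    rw [div_self hcard]; simp
  have hΦd : ∀ z ∈ closedBall (0 : ℂ) r, HasDerivAt Φ (Φ z * (gx s c z - z * v)) z := by
    intro z hz
    have h1 := (Mx_hasDerivAt s c z).div_const (s.card : ℂ)
    have h2 : HasDerivAt (fun z : ℂ => -(z ^ 2 * v / 2)) (-(z * v)) z := by
      have := ((hasDerivAt_pow 2 z).mul_const (v : ℂ)).div_const 2 |>.neg
      refine this.congr_deriv ?_
      push_cast; ring
    have h3 := h1.mul h2.cexp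
    refine h3.congr_deriv ?_
    have h4 : (∑ i ∈ s, (c i : ℂ) * cexp (z * c i)) = gx s c z * Mx s c z := by
      unfold gx
      rw [div_mul_cancel₀ _ (hne' z hz)]
    rw [h4]
    simp only [hΦ]
    ring
  set K : ℝ := 16 * v * ‖z‖ ^ 3 / w with hK
  have hK0 : 0 ≤ K := by positivity
  have hseg : ∀ t ∈ Icc (0 : ℝ) 1, ‖(t : ℂ) * z‖ ≤ ‖z‖ := by
    intro t ht
    rw [norm_mul, Complex.norm_real, Real.norm_eq_abs, abs_of_nonneg ht.1]
    exact mul_le_of_le_one_left (norm_nonneg _) ht.2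
  have hmem : ∀ t ∈ Icc (0 : ℝ) 1, (t : ℂ) * z ∈ closedBall (0 : ℂ) r := by
    intro t ht
    have := hseg t ht
    simp only [mem_closedBall, dist_zero_right]
    linarith
  have hfd : ∀ t ∈ Icc (0 : ℝ) 1, HasDerivAt (fun t : ℝ => Φ (t * z) - 1)
      (Φ (t * z) * (gx s c (t * z) - (t * z) * v) * z) t := by
    intro t ht
    have h1 : HasDerivAt (fun t : ℝ => (t : ℂ) * z) z t := by
      simpa using (Complex.ofRealCLM.hasDerivAt (x := t)).mul_const z
    exact (HasDerivAt.comp (h₂ := Φ) t (hΦd _ (hmem t ht)) h1).sub_const 1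
  have hgron := norm_le_gronwallBound_of_norm_deriv_right_le (f := fun t : ℝ => Φ (t * z) - 1)
    (f' := fun t : ℝ => Φ (t * z) * (gx s c (t * z) - (t * z) * v) * z) (δ := 0) (K := K) (ε := K)
    (a := 0) (b := 1) (fun t ht => (hfd t ht).continuousAt.continuousWithinAt)
    (fun t ht => (hfd t ⟨ht.1, ht.2.le⟩).hasDerivWithinAt) (by simp [hΦ0])
    (fun t ht => by
      have ht' : t ∈ Icc (0 : ℝ) 1 := ⟨ht.1, ht.2.le⟩
      have h1 := hk ((t : ℂ) * z) ((hseg t ht').trans (by rw [hr]; linarith))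
      have h2 := hseg t ht'
      have h3 : ‖Φ (t * z)‖ ≤ ‖Φ (t * z) - 1‖ + 1 := by
        calc ‖Φ (t * z)‖ = ‖(Φ (t * z) - 1) + 1‖ := by ring_nf
          _ ≤ ‖Φ (t * z) - 1‖ + ‖(1 : ℂ)‖ := norm_add_le _ _
          _ = _ := by rw [norm_one]
      rw [norm_mul, norm_mul]
      have h4 : 8 * v * ‖(t : ℂ) * z‖ ^ 2 / r ≤ 16 * v * ‖z‖ ^ 2 / w := by
        have : ‖(t : ℂ) * z‖ ^ 2 ≤ ‖z‖ ^ 2 := pow_le_pow_left₀ (norm_nonneg _) h2 2
        calc 8 * v * ‖(t : ℂ) * z‖ ^ 2 / r ≤ 8 * v * ‖z‖ ^ 2 / r := by gcongr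
          _ = 16 * v * ‖z‖ ^ 2 / w := by rw [hr]; field_simp; ring
      calc ‖Φ (t * z)‖ * ‖gx s c (t * z) - (t * z) * v‖ * ‖z‖
          ≤ (‖Φ (t * z) - 1‖ + 1) * (16 * v * ‖z‖ ^ 2 / w) * ‖z‖ := by
            gcongr
            exact h1.trans h4
        _ = K * ‖Φ (t * z) - 1‖ + K := by rw [hK]; ring)
    1 (by simp)
  simp only [Complex.ofReal_one, one_mul] at hgron
  refine hgron.trans ?_
  rcases hK0.eq_or_lt with h | h
  · rw [← h]
    simp [gronwallBound_K0]
  · rw [gronwallBound_of_K_ne_0 h.ne']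
    simp [h.ne']

end

end Pool.Agent.Helper909_ice
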