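import Pool.Agent.Helper909_ice.Pair

/-!
Positivity and monotonicity of the even characteristic sums.
-/

namespace Pool.Agent.Helper909_ice

open Finset Real

/-- nonnegative and nonincreasing on `[0,T]` -/
def Good (T : ℝ) (φ : ℝ → ℝ) : Prop :=
  (∀ y ∈ Set.Icc 0 T, 0 ≤ φ y) ∧ AntitoneOn φ (Set.Icc 0 T)

namespace Good

variable {T : ℝ} {φ ψ : ℝ → ℝ}

lemma add (h1 : Good T φ) (h2 : Good T ψ) : Good T (fun y => φ y + ψ y) :=
  ⟨fun y hy => add_nonneg (h1.1 y hy) (h2.1 y hy), h1.2.add h2.2⟩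

lemma mul (h1 : Good T φ) (h2 : Good T ψ) : Good T (fun y => φ y * ψ y) := by
  refine ⟨fun y hy => mul_nonneg (h1.1 y hy) (h2.1 y hy), fun a ha b hb hab => ?_⟩
  exact mul_le_mul (h1.2 ha hb hab) (h2.2 ha hb hab) (h2.1 b hb) (h1.1 a ha)

lemma const {c : ℝ} (hc : 0 ≤ c) : Good T (fun _ => c) :=
  ⟨fun _ _ => hc, fun _ _ _ _ _ => le_rfl⟩

lemma cmul {c : ℝ} (hc : 0 ≤ c) (h : Good T φ) : Good T (fun y => c * φ y) :=
  (const hc).mul h

lemma sum {ι : Type*} (s : Finset ι) (g : ι → ℝ → ℝ) (h : ∀ i ∈ s, Good T (g i)) :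
    Good T (fun y => ∑ i ∈ s, g i y) := by
  classical
  induction s using Finset.induction_on with
  | empty => simpa using const (T := T) le_rfl
  | insert a s ha ih =>
    have h1 := h a (Finset.mem_insert_self a s)
    have h2 := ih (fun i hi => h i (Finset.mem_insert_of_mem hi))
    have := h1.add h2
    simpa [Finset.sum_insert ha] using this

lemma congr (h : Good T φ) (e : ∀ y, ψ y = φ y) : Good T ψ := by
  have : ψ = φ := funext e
  rw [this]; exact h

end Good

lemma good_cos {c T : ℝ} (h : |c| * T ≤ π / 2) : Good T (fun θ => cos (θ * c)) := by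
  have key : ∀ θ : ℝ, cos (θ * c) = cos (θ * |c|) := by
    intro θ
    rcases abs_cases c with ⟨e, _⟩ | ⟨e, _⟩
    · rw [e]
    · rw [e, mul_neg, cos_neg]
  have hb : ∀ θ ∈ Set.Icc 0 T, 0 ≤ θ * |c| ∧ θ * |c| ≤ π / 2 := by
    intro θ hθ
    refine ⟨mul_nonneg hθ.1 (abs_nonneg c), ?_⟩
    calc θ * |c| ≤ T * |c| := mul_le_mul_of_nonneg_right hθ.2 (abs_nonneg c)
      _ = |c| * T := mul_comm _ _
      _ ≤ π / 2 := h
  refine ⟨fun θ hθ => ?_, fun a ha b hb' hab => ?_⟩
  · change 0 ≤ cos (θ * c)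
    rw [key]
    obtain ⟨h1, h2⟩ := hb θ hθ
    exact cos_nonneg_of_mem_Icc ⟨by linarith [pi_pos], h2⟩
  · simp only [key]
    obtain ⟨h1, h2⟩ := hb a ha
    obtain ⟨h3, h4⟩ := hb b hb'
    exact cos_le_cos_of_nonneg_of_le_pi h1 (by linarith [pi_pos])
      (mul_le_mul_of_nonneg_right hab (abs_nonneg c))

variable {V ε : Type*} [Fintype V] [Fintype ε] [DecidableEq ε]

/-- the linear statistic -/
def lin (f : V → ℝ) (b : V → ℤ) : ℝ := ∑ x, f x * (b x : ℝ)

lemma lin_add (f : V → ℝ) (b c : V → ℤ) : lin f (b + c) = lin f b + lin f c := by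
  simp only [lin, Pi.add_apply, Int.cast_add, mul_add, Finset.sum_add_distrib]

lemma lin_sub (f : V → ℝ) (b c : V → ℤ) : lin f (b - c) = lin f b - lin f c := by
  simp only [lin, Pi.sub_apply, Int.cast_sub, mul_sub, Finset.sum_sub_distrib]

lemma lin_neg (f : V → ℝ) (b : V → ℤ) : lin f (-b) = - lin f b := by
  simp only [lin, Pi.neg_apply, Int.cast_neg, mul_neg, Finset.sum_neg_distrib]

lemma lin_zero (f : V → ℝ) : lin f (0 : V → ℤ) = 0 := by
  simp [lin]

namespace Net

variable (G : Net V ε)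

omit [Fintype V] in
lemma neg_mem {F : Finset ε} {b : V → ℤ} (hb : b ∈ G.C 0 F) : -b ∈ G.C 0 F := by
  rw [mem_C] at hb ⊢
  refine ⟨fun x hx => ?_, fun e => ?_⟩
  · have := hb.1 x hx
    simp only [Pi.zero_apply] at this
    simp [this]
  · have := hb.2 e
    rw [← this]
    simp only [Pi.neg_apply]
    rw [show -b (G.s e) - -b (G.t e) = -(b (G.s e) - b (G.t e)) by ring, abs_neg]

omit [Fintype V] in
lemma sum_neg {R : Type*} [AddCommMonoid R] (F : Finset ε) (Φ : (V → ℤ) → R) :
    ∑ b ∈ G.C 0 F, Φ (-b) = ∑ b ∈ G.C 0 F, Φ b :=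
  Finset.sum_nbij' (fun b => -b) (fun b => -b) (fun _ hb => G.neg_mem hb)
    (fun _ hb => G.neg_mem hb) (fun b _ => neg_neg b) (fun b _ => neg_neg b) (fun _ _ => rfl)

/-- the even characteristic sum -/
noncomputable def K (f : V → ℝ) (F : Finset ε) (θ : ℝ) : ℝ := ∑ b ∈ G.C 0 F, cos (θ * lin f b)

lemma sum_sin (f : V → ℝ) (F : Finset ε) (θ : ℝ) : ∑ b ∈ G.C 0 F, sin (θ * lin f b) = 0 := by
  have h := G.sum_neg F (fun b => sin (θ * lin f b))
  simp only [lin_neg, mul_neg, sin_neg, Finset.sum_neg_distrib] at h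
  linarith

lemma K_mul (f : V → ℝ) (F : Finset ε) (θ : ℝ) :
    ((G.C 0 F).card : ℝ) * G.K f F θ = ∑ F1 ∈ F.powerset, G.K f F1 θ * G.K f (F \ F1) θ := by
  have h := G.pair_sum 0 F (fun b _ => cos (θ * lin f b))
  simp only [Finset.sum_const, nsmul_eq_mul] at h
  rw [← Finset.mul_sum] at h
  rw [K, h]
  refine Finset.sum_congr rfl (fun F1 _ => ?_)
  have e : ∀ p q : V → ℤ, cos (θ * lin f (p + q)) =
      cos (θ * lin f p) * cos (θ * lin f q) - sin (θ * lin f p) * sin (θ * lin f q) := by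
    intro p q
    rw [lin_add, mul_add, cos_add]
  simp only [e, Finset.sum_sub_distrib, ← Finset.mul_sum, ← Finset.sum_mul, G.sum_sin, K]
  ring

omit [Fintype V] in
lemma C_empty : G.C 0 ∅ = {0} := by
  ext b
  rw [Finset.mem_singleton]
  have h0 : (0 : V → ℤ) ∈ G.C 0 ∅ := by
    rw [mem_C]; simp
  constructor
  · intro hb
    refine G.C_inj hb h0 (fun e => ?_)
    have := ((G.mem_C).1 hb).2 e
    simp only [Finset.notMem_empty, if_false, abs_eq_zero] at this
    simpa using this
  · rintro rfl; exact h0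

lemma K_empty (f : V → ℝ) (θ : ℝ) : G.K f ∅ θ = 1 := by
  simp [K, G.C_empty, lin_zero]

omit [Fintype V] in
lemma ne_neg {F : Finset ε} (hF : F.Nonempty) {b : V → ℤ} (hb : b ∈ G.C 0 F) : b ≠ -b := by
  intro h
  obtain ⟨e, he⟩ := hF
  have h0 : ∀ x, b x = 0 := by
    intro x
    have := congrFun h x
    simp only [Pi.neg_apply] at this
    omega
  have := ((G.mem_C).1 hb).2 e
  simp [he, h0] at this

omit [Fintype V] in
/-- a class of only two elements consists of an indicator function and its negative -/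
lemma two_case {F : Finset ε} (hF : F.Nonempty) (hc : (G.C 0 F).card ≤ 2) {b : V → ℤ}
    (hb : b ∈ G.C 0 F) (hpos : ∀ x, 0 ≤ b x) : ∀ x, b x = 0 ∨ b x = 1 := by
  classical
  have hsub : ({b, -b} : Finset (V → ℤ)) ⊆ G.C 0 F := by
    intro c hc'
    simp only [Finset.mem_insert, Finset.mem_singleton] at hc'
    rcases hc' with rfl | rfl
    · exact hb
    · exact G.neg_mem hb
  have hcard : ({b, -b} : Finset (V → ℤ)).card = 2 := Finset.card_pair (G.ne_neg hF hb)
  have heq : ({b, -b} : Finset (V → ℤ)) = G.C 0 F :=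
    Finset.eq_of_subset_of_card_le hsub (by rw [hcard]; exact hc)
  have hfold : (fun x => 1 - |1 - b x|) ∈ G.C 0 F := by
    rw [mem_C] at hb ⊢
    refine ⟨fun x hx => ?_, fun e => ?_⟩
    · have := hb.1 x hx
      simp only [Pi.zero_apply] at this
      simp [this]
    · have h1 := hb.2 e
      rw [← h1]
      have h2 : |b (G.s e) - b (G.t e)| ≤ 1 := by rw [h1]; split_ifs <;> norm_num
      rw [abs_le] at h2
      rcases abs_cases (1 - b (G.s e)) with ⟨e1, _⟩ | ⟨e1, _⟩ <;>
      rcases abs_cases (1 - b (G.t e)) with ⟨e2, _⟩ | ⟨e2, _⟩ <;>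
      rw [e1, e2] <;>
      rcases abs_cases (b (G.s e) - b (G.t e)) with ⟨e3, _⟩ | ⟨e3, _⟩ <;>
      rw [e3] <;>
      first
      | (rw [abs_of_nonneg (by omega)]; omega)
      | (rw [abs_of_nonpos (by omega)]; omega)
  rw [← heq] at hfold
  simp only [Finset.mem_insert, Finset.mem_singleton] at hfold
  rcases hfold with h | h
  · intro x
    have h1 := congrFun h x
    have h2 := hpos x
    rcases abs_cases (1 - b x) with ⟨e1, _⟩ | ⟨e1, _⟩ <;> omega
  · exfalso
    obtain ⟨e, he⟩ := hF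
    have h0 : ∀ x, b x = 0 := by
      intro x
      have h1 := congrFun h x
      have h2 := hpos x
      simp only [Pi.neg_apply] at h1
      rcases abs_cases (1 - b x) with ⟨e1, _⟩ | ⟨e1, _⟩ <;> omega
    have := ((G.mem_C).1 hb).2 e
    simp [he, h0] at this

omit [Fintype V] in
lemma two_case' {F : Finset ε} (hF : F.Nonempty) (hc : (G.C 0 F).card ≤ 2) {b : V → ℤ}
    (hb : b ∈ G.C 0 F) : (∀ x, b x = 0 ∨ b x = 1) ∨ (∀ x, (-b) x = 0 ∨ (-b) x = 1) := by
  classical
  have hsub : ({b, -b} : Finset (V → ℤ)) ⊆ G.C 0 F := by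
    intro c hc'
    simp only [Finset.mem_insert, Finset.mem_singleton] at hc'
    rcases hc' with rfl | rfl
    · exact hb
    · exact G.neg_mem hb
  have hcard : ({b, -b} : Finset (V → ℤ)).card = 2 := Finset.card_pair (G.ne_neg hF hb)
  have heq : ({b, -b} : Finset (V → ℤ)) = G.C 0 F :=
    Finset.eq_of_subset_of_card_le hsub (by rw [hcard]; exact hc)
  have hfold : (fun x => |b x|) ∈ G.C 0 F := by
    rw [mem_C] at hb ⊢
    refine ⟨fun x hx => ?_, fun e => ?_⟩
    · have := hb.1 x hx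
      simp only [Pi.zero_apply] at this
      simp [this]
    · have h1 := hb.2 e
      rw [← h1]
      have h2 : |b (G.s e) - b (G.t e)| ≤ 1 := by rw [h1]; split_ifs <;> norm_num
      rw [abs_le] at h2
      rcases abs_cases (b (G.s e)) with ⟨e1, _⟩ | ⟨e1, _⟩ <;>
      rcases abs_cases (b (G.t e)) with ⟨e2, _⟩ | ⟨e2, _⟩ <;>
      rw [e1, e2] <;>
      rcases abs_cases (b (G.s e) - b (G.t e)) with ⟨e3, _⟩ | ⟨e3, _⟩ <;>
      rw [e3] <;>
      first
      | (rw [abs_of_nonneg (by omega)]; omega)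
      | (rw [abs_of_nonpos (by omega)]; omega)
  rw [← heq] at hfold
  simp only [Finset.mem_insert, Finset.mem_singleton] at hfold
  rcases hfold with h | h
  · left
    refine G.two_case hF hc hb (fun x => ?_)
    have h1 := congrFun h x
    rw [← h1]; exact abs_nonneg _
  · right
    refine G.two_case hF hc (G.neg_mem hb) (fun x => ?_)
    have h1 := congrFun h x
    rw [← h1]; exact abs_nonneg _

omit [Fintype ε] [DecidableEq ε] in
lemma lin_abs_le (f : V → ℝ) {b : V → ℤ} (hb : ∀ x, b x = 0 ∨ b x = 1) :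
    |lin f b| ≤ ∑ x, |f x| := by
  unfold lin
  refine (Finset.abs_sum_le_sum_abs _ _).trans (Finset.sum_le_sum (fun x _ => ?_))
  rcases hb x with h | h <;> simp [h]

theorem good_K (f : V → ℝ) {T : ℝ} (hT : (∑ x, |f x|) * T ≤ π / 2) (hT0 : 0 ≤ T)
    (F : Finset ε) : Good T (G.K f F) := by
  classical
  induction F using Finset.strongInduction with
  | H F ih =>
    rcases F.eq_empty_or_nonempty with rfl | hF
    · exact (Good.const (T := T) zero_le_one).congr (fun y => G.K_empty f y)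
    by_cases hc : (G.C 0 F).card ≤ 2
    · rcases (G.C 0 F).eq_empty_or_nonempty with h0 | ⟨b, hb⟩
      · refine (Good.const (T := T) le_rfl).congr (fun y => ?_)
        simp [K, h0]
      · have hsub : ({b, -b} : Finset (V → ℤ)) ⊆ G.C 0 F := by
          intro c hc'
          simp only [Finset.mem_insert, Finset.mem_singleton] at hc'
          rcases hc' with rfl | rfl
          · exact hb
          · exact G.neg_mem hb
        have hcard : ({b, -b} : Finset (V → ℤ)).card = 2 := Finset.card_pair (G.ne_neg hF hb)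
        have heq : ({b, -b} : Finset (V → ℤ)) = G.C 0 F :=
          Finset.eq_of_subset_of_card_le hsub (by rw [hcard]; exact hc)
        have hlin : |lin f b| ≤ ∑ x, |f x| := by
          rcases G.two_case' hF hc hb with h | h
          · exact lin_abs_le f h
          · have := lin_abs_le f h
            rwa [lin_neg, abs_neg] at this
        have hg : Good T (fun θ => cos (θ * lin f b)) :=
          good_cos ((mul_le_mul_of_nonneg_right hlin hT0).trans hT)
        refine (hg.cmul (c := 2) (by norm_num)).congr (fun y => ?_)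
        rw [K, ← heq, Finset.sum_pair (G.ne_neg hF hb), lin_neg, mul_neg, cos_neg]
        ring
    · push Not at hc
      have hc' : (0 : ℝ) < ((G.C 0 F).card : ℝ) - 2 := by
        have : (2 : ℝ) < ((G.C 0 F).card : ℝ) := by exact_mod_cast hc
        linarith
      have hg : Good T (fun θ => ∑ F1 ∈ (F.powerset.erase ∅).erase F,
          G.K f F1 θ * G.K f (F \ F1) θ) := by
        refine Good.sum _ _ (fun F1 hF1 => ?_)
        simp only [Finset.mem_erase, Finset.mem_powerset] at hF1
        obtain ⟨h1, h2, h3⟩ := hF1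
        refine (ih F1 (h3.ssubset_of_ne h1)).mul (ih (F \ F1) ?_)
        refine Finset.sdiff_ssubset h3 (Finset.nonempty_iff_ne_empty.2 h2)
      refine (hg.cmul (c := (((G.C 0 F).card : ℝ) - 2)⁻¹) (by positivity)).congr (fun y => ?_)
      have h := G.K_mul f F y
      have hne : (∅ : Finset ε) ≠ F := fun h => hF.ne_empty h.symm
      rw [← Finset.add_sum_erase _ _ (Finset.empty_mem_powerset F),
        ← Finset.add_sum_erase _ _ (show F ∈ F.powerset.erase ∅ from
          Finset.mem_erase.2 ⟨hne.symm, Finset.mem_powerset_self F⟩)] at h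
      simp only [G.K_empty, Finset.sdiff_empty, sdiff_self, Finset.bot_eq_empty] at h
      field_simp
      linarith

end Net

end Pool.Agent.Helper909_ice
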