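import Pool.Agent.Helper909_ice.ExpSum

/-!
Linear statistics of uniform integer valued functions are close to Gaussian.
-/

namespace Pool.Agent.Helper909_ice

open Finset Complex
open scoped Real ComplexConjugate

lemma Good.comp_two {T : ℝ} {φ : ℝ → ℝ} (h : Good T φ) : Good (T / 2) (fun y => φ (2 * y)) := by
  have hm : ∀ y ∈ Set.Icc (0 : ℝ) (T / 2), 2 * y ∈ Set.Icc (0 : ℝ) T := by
    intro y hy
    exact ⟨by linarith [hy.1], by linarith [hy.2]⟩
  refine ⟨fun y hy => h.1 _ (hm y hy), fun a ha b hb hab => ?_⟩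
  exact h.2 (hm a ha) (hm b hb) (by linarith)

lemma normSq_Mx {ι : Type*} (s : Finset ι) (c : ι → ℝ) (x y : ℝ) :
    normSq (Mx s c (x + y * I)) =
      ∑ i ∈ s, ∑ j ∈ s, Real.exp (x * (c i + c j)) * Real.cos (y * (c i - c j)) := by
  have e : Mx s c (x + y * I) =
      ((∑ i ∈ s, Real.exp (x * c i) * Real.cos (y * c i) : ℝ) : ℂ) +
      ((∑ i ∈ s, Real.exp (x * c i) * Real.sin (y * c i) : ℝ) : ℂ) * I := by
    unfold Mx
    push_cast
    rw [Finset.sum_mul, ← Finset.sum_add_distrib]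
    refine Finset.sum_congr rfl (fun i _ => ?_)
    rw [show ((x : ℂ) + y * I) * c i = (x * c i : ℂ) + (y * c i : ℂ) * I by ring, Complex.exp_add,
      Complex.exp_mul_I]
    ring
  rw [e, normSq_add_mul_I, sq, sq, Finset.sum_mul_sum, Finset.sum_mul_sum,
    ← Finset.sum_add_distrib]
  refine Finset.sum_congr rfl (fun i _ => ?_)
  rw [← Finset.sum_add_distrib]
  refine Finset.sum_congr rfl (fun j _ => ?_)
  rw [mul_add, Real.exp_add, mul_sub, Real.cos_sub]
  ring

variable {V ε : Type*} [Fintype V] [Fintype ε] [DecidableEq ε]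

namespace Net

variable (G : Net V ε)

lemma normSq_formula (ξ : V → ℤ) (f : V → ℝ) (x y : ℝ) :
    normSq (Mx (G.C ξ univ) (lin f) (x + y * I)) =
      ∑ F1 ∈ (univ : Finset ε).powerset,
        (∑ p ∈ G.C ξ F1, Real.exp (2 * x * lin f p)) * G.K f (univ \ F1) (2 * y) := by
  rw [normSq_Mx, G.pair_sum ξ univ
    (fun b c => Real.exp (x * (lin f b + lin f c)) * Real.cos (y * (lin f b - lin f c)))]
  refine Finset.sum_congr rfl (fun F1 _ => ?_)
  rw [K, Finset.sum_mul_sum]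
  refine Finset.sum_congr rfl (fun p _ => Finset.sum_congr rfl (fun q _ => ?_))
  rw [lin_add, lin_sub]
  congr 2 <;> ring

lemma normSq_good (ξ : V → ℤ) (f : V → ℝ) {T : ℝ} (hT : (∑ x, |f x|) * T ≤ π / 2) (hT0 : 0 ≤ T)
    (x : ℝ) : Good (T / 2) (fun y => normSq (Mx (G.C ξ univ) (lin f) (x + y * I))) := by
  refine (Good.sum (univ : Finset ε).powerset (fun F1 y =>
    (∑ p ∈ G.C ξ F1, Real.exp (2 * x * lin f p)) * G.K f (univ \ F1) (2 * y))
    (fun F1 _ => ?_)).congr (fun y => G.normSq_formula ξ f x y)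
  exact ((G.good_K f hT hT0 _).comp_two).cmul
    (Finset.sum_nonneg (fun p _ => (Real.exp_pos _).le))

lemma normSq_pos (ξ : V → ℤ) (hne : (G.C ξ univ).Nonempty) (f : V → ℝ) {T : ℝ}
    (hT : (∑ x, |f x|) * T ≤ π / 2) (hT0 : 0 ≤ T) (x : ℝ) {y : ℝ} (hy0 : 0 ≤ y) (hy : y ≤ T / 2) :
    0 < normSq (Mx (G.C ξ univ) (lin f) (x + y * I)) := by
  rw [G.normSq_formula]
  refine Finset.sum_pos' (fun F1 _ => ?_) ⟨univ, Finset.mem_powerset_self _, ?_⟩
  · refine mul_nonneg (Finset.sum_nonneg (fun p _ => (Real.exp_pos _).le)) ?_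
    exact (G.good_K f hT hT0 _).1 _ ⟨by linarith, by linarith⟩
  · rw [sdiff_self, Finset.bot_eq_empty, G.K_empty, mul_one]
    exact Finset.sum_pos (fun p _ => Real.exp_pos _) hne

/-- Linear statistics with small absolute sum of coefficients are close to Gaussian. -/
theorem gauss (ξ : V → ℤ) (hne : (G.C ξ univ).Nonempty) (f : V → ℝ) {L : ℝ}
    (hL : 0 < L) (hL1 : L ≤ π / 16) (hf : ∑ x, |f x| ≤ L) {μ v : ℝ}
    (hμ : μ = (∑ h ∈ G.C ξ univ, lin f h) / (G.C ξ univ).card)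
    (hv : v = (∑ h ∈ G.C ξ univ, (lin f h - μ) ^ 2) / (G.C ξ univ).card) :
    ‖(∑ h ∈ G.C ξ univ, cexp (((lin f h - μ : ℝ) : ℂ) * I)) / (G.C ξ univ).card *
      cexp ((v : ℂ) / 2) - 1‖ ≤ Real.exp (64 * v * L / π) - 1 := by
  set s := G.C ξ univ with hs
  set c : (V → ℤ) → ℝ := fun h => lin f h - μ with hc
  have hcard : (s.card : ℝ) ≠ 0 := by
    exact_mod_cast hne.card_pos.ne'
  have hmean : ∑ h ∈ s, c h = 0 := by
    simp only [hc, Finset.sum_sub_distrib, Finset.sum_const, nsmul_eq_mul]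
    rw [hμ]; field_simp; ring
  set w : ℝ := π / (4 * L) with hw
  have hw0 : 0 < w := by positivity
  have hT : (∑ x, |f x|) * (2 * w) ≤ π / 2 := by
    calc (∑ x, |f x|) * (2 * w) ≤ L * (2 * w) := by gcongr
      _ = π / 2 := by rw [hw]; field_simp; norm_num
  have hMx : ∀ z : ℂ, Mx s c z = cexp (-(z * μ)) * Mx s (lin f) z := by
    intro z
    simp only [Mx, Finset.mul_sum, hc]
    refine Finset.sum_congr rfl (fun h _ => ?_)
    rw [← Complex.exp_add]
    congr 1
    push_cast; ring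
  have hnS : ∀ x y : ℝ, normSq (Mx s c (x + y * I)) =
      Real.exp (-(2 * x * μ)) * normSq (Mx s (lin f) (x + y * I)) := by
    intro x y
    rw [hMx, normSq_mul]
    congr 1
    rw [Complex.normSq_eq_norm_sq, Complex.norm_exp, ← Real.exp_nat_mul]
    congr 1
    simp [Complex.add_re, Complex.mul_re]
    ring
  have hgood : ∀ x : ℝ, AntitoneOn (fun y : ℝ => normSq (Mx s c (x + y * I))) (Set.Icc 0 w) := by
    intro x
    have h1 := (G.normSq_good ξ f hT (by positivity) x).cmul (Real.exp_pos (-(2 * x * μ))).le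
    have h2 := h1.congr (fun y => hnS x y)
    have e : 2 * w / 2 = w := by ring
    rw [e] at h2
    exact h2.2
  have hne' : ∀ x y : ℝ, 0 ≤ y → y ≤ w → Mx s c (x + y * I) ≠ 0 := by
    intro x y hy0 hyw h0
    have h1 := G.normSq_pos ξ hne f hT (by positivity) x hy0 (by linarith)
    have h2 := hnS x y
    rw [h0, map_zero] at h2
    have := mul_pos (Real.exp_pos (-(2 * x * μ))) h1
    rw [← hs] at this
    linarith
  have hz : ‖(I : ℂ)‖ ≤ w / 4 := by
    rw [Complex.norm_I, hw, le_div_iff₀ (by norm_num), le_div_iff₀ (by positivity)]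
    linarith
  have key := expsum_gauss hne hmean hw0 hgood hne' hz
  have hv' : (∑ i ∈ s, c i ^ 2) / (s.card : ℝ) = v := by rw [hv]
  rw [hv', Complex.norm_I] at key
  have e1 : 16 * v * 1 ^ 3 / w = 64 * v * L / π := by
    rw [hw]; field_simp; ring
  rw [e1] at key
  have e2 : -((I : ℂ) ^ 2 * (v : ℂ) / 2) = (v : ℂ) / 2 := by
    rw [I_sq]; ring
  rw [e2] at key
  have e3 : Mx s c I = ∑ h ∈ s, cexp (((lin f h - μ : ℝ) : ℂ) * I) := by
    unfold Mx
    refine Finset.sum_congr rfl (fun h _ => ?_)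
    rw [mul_comm]
  rw [e3] at key
  exact key

end Net

end Pool.Agent.Helper909_ice
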