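import Mathlib

/-!
Uniform integer valued functions on a finite graph with prescribed absolute gradients:
the pairing identity and positivity.
-/

namespace Pool.Agent.Helper909_ice

open Finset

/-- a finite multigraph with a pinned set which meets every connected component -/
structure Net (V ε : Type*) where
  /-- first end point -/
  s : ε → V
  /-- second end point -/
  t : ε → V
  /-- pinned vertices -/
  B : Set V
  conn : ∀ U : Set V, B ⊆ U → (∀ e, s e ∈ U ↔ t e ∈ U) → ∀ x, x ∈ U

variable {V ε : Type*} [Fintype V] [Fintype ε] [DecidableEq ε]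

namespace Net

variable (G : Net V ε)

/-- functions with value `ξ` on the pinned set and absolute gradient the indicator of `F` -/
def cfg (ξ : V → ℤ) (F : Finset ε) : Set (V → ℤ) :=
  {b | (∀ x ∈ G.B, b x = ξ x) ∧ ∀ e, |b (G.s e) - b (G.t e)| = if e ∈ F then 1 else 0}

omit [Fintype V] [Fintype ε] in
lemma cfg_inj {ξ : V → ℤ} {F : Finset ε} {b c : V → ℤ} (hb : b ∈ G.cfg ξ F) (hc : c ∈ G.cfg ξ F)
    (h : ∀ e, b (G.s e) - b (G.t e) = c (G.s e) - c (G.t e)) : b = c := by
  funext x
  refine G.conn {x | b x = c x} ?_ ?_ x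
  · intro y hy
    simp only [Set.mem_ofPred_eq]
    rw [hb.1 y hy, hc.1 y hy]
  · intro e
    simp only [Set.mem_ofPred_eq]
    have := h e
    omega

omit [Fintype V] in
lemma cfg_finite (ξ : V → ℤ) (F : Finset ε) : (G.cfg ξ F).Finite := by
  refine Set.Finite.of_injOn (f := fun b e => b (G.s e) - b (G.t e))
    (t := Set.pi Set.univ (fun _ : ε => Set.Icc (-1 : ℤ) 1)) ?_ ?_ ?_
  · intro b hb e _
    have := hb.2 e
    have h1 : |b (G.s e) - b (G.t e)| ≤ 1 := by
      rw [this]; split_ifs <;> norm_num
    exact abs_le.1 h1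
  · intro b hb c hc h
    exact G.cfg_inj hb hc (fun e => congrFun h e)
  · exact Set.Finite.pi (fun _ => Set.finite_Icc _ _)

/-- the finite set of configurations -/
noncomputable def C (ξ : V → ℤ) (F : Finset ε) : Finset (V → ℤ) := (G.cfg_finite ξ F).toFinset

omit [Fintype V] in
lemma mem_C {ξ : V → ℤ} {F : Finset ε} {b : V → ℤ} : b ∈ G.C ξ F ↔
    (∀ x ∈ G.B, b x = ξ x) ∧ ∀ e, |b (G.s e) - b (G.t e)| = if e ∈ F then 1 else 0 := by
  simp [C, cfg]

omit [Fintype V] in
lemma C_inj {ξ : V → ℤ} {F : Finset ε} {b c : V → ℤ} (hb : b ∈ G.C ξ F) (hc : c ∈ G.C ξ F)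
    (h : ∀ e, b (G.s e) - b (G.t e) = c (G.s e) - c (G.t e)) : b = c :=
  G.cfg_inj (by simpa [C] using hb) (by simpa [C] using hc) h

omit [Fintype V] in
lemma even_sub {ξ : V → ℤ} {F : Finset ε} {b c : V → ℤ} (hb : b ∈ G.C ξ F) (hc : c ∈ G.C ξ F)
    (x : V) : Even (b x - c x) := by
  rw [mem_C] at hb hc
  refine G.conn {x | Even (b x - c x)} ?_ ?_ x
  · intro y hy
    simp only [Set.mem_ofPred_eq]
    rw [hb.1 y hy, hc.1 y hy]; simp
  · intro e
    simp only [Set.mem_ofPred_eq]
    have h1 := hb.2 e
    have h2 := hc.2 e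
    split_ifs at h1 h2 with he
    · have a1 := (abs_eq (by norm_num : (0:ℤ) ≤ 1)).1 h1
      have a2 := (abs_eq (by norm_num : (0:ℤ) ≤ 1)).1 h2
      rw [Int.even_iff, Int.even_iff]
      omega
    · rw [abs_eq_zero] at h1 h2
      rw [Int.even_iff, Int.even_iff]
      omega

/-- the edges along which the two gradients agree and are not zero -/
noncomputable def agree (F : Finset ε) (b c : V → ℤ) : Finset ε := by
  classical
  exact F.filter (fun e => b (G.s e) - b (G.t e) = c (G.s e) - c (G.t e))

omit [Fintype V] in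
/-- the pairing identity -/
lemma pair_sum {R : Type*} [AddCommMonoid R] (ξ : V → ℤ) (F : Finset ε)
    (Φ : (V → ℤ) → (V → ℤ) → R) :
    ∑ b ∈ G.C ξ F, ∑ c ∈ G.C ξ F, Φ b c =
      ∑ F1 ∈ F.powerset, ∑ p ∈ G.C ξ F1, ∑ q ∈ G.C 0 (F \ F1), Φ (p + q) (p - q) := by
  classical
  rw [← Finset.sum_product']
  have : ∀ F1 ∈ F.powerset, ∑ p ∈ G.C ξ F1, ∑ q ∈ G.C 0 (F \ F1), Φ (p + q) (p - q) =
      ∑ w ∈ (G.C ξ F1) ×ˢ (G.C 0 (F \ F1)), Φ (w.1 + w.2) (w.1 - w.2) := by
    intro F1 _
    rw [← Finset.sum_product']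
  rw [Finset.sum_congr rfl this, Finset.sum_sigma']
  refine Finset.sum_nbij'
    (i := fun w => (⟨G.agree F w.1 w.2, (fun x => (w.1 x + w.2 x) / 2,
      fun x => (w.1 x - w.2 x) / 2)⟩ : (_ : Finset ε) × ((V → ℤ) × (V → ℤ))))
    (j := fun w => (w.2.1 + w.2.2, w.2.1 - w.2.2)) ?_ ?_ ?_ ?_ ?_
  · rintro ⟨b, c⟩ hw
    simp only [Finset.mem_product] at hw
    obtain ⟨hb, hc⟩ := hw
    have hev := fun x => G.even_sub hb hc x
    have hb' := (G.mem_C).1 hb
    have hc' := (G.mem_C).1 hc
    simp only [Finset.mem_sigma, Finset.mem_powerset, Finset.mem_product]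
    refine ⟨?_, ?_, ?_⟩
    · unfold agree
      exact Finset.filter_subset _ _
    · rw [mem_C]
      refine ⟨fun x hx => ?_, fun e => ?_⟩
      · rw [hb'.1 x hx, hc'.1 x hx]; omega
      · have h1 := hb'.2 e
        have h2 := hc'.2 e
        have e1 := (Int.even_iff).1 (hev (G.s e))
        have e2 := (Int.even_iff).1 (hev (G.t e))
        simp only [agree, Finset.mem_filter]
        by_cases he : e ∈ F
        · simp only [he, if_true, true_and] at h1 h2 ⊢
          have a1 := (abs_eq (by norm_num : (0:ℤ) ≤ 1)).1 h1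
          have a2 := (abs_eq (by norm_num : (0:ℤ) ≤ 1)).1 h2
          split_ifs with hh
          · rw [abs_eq (by norm_num : (0:ℤ) ≤ 1)]; omega
          · rw [abs_eq_zero]; omega
        · simp only [he, if_false, false_and, abs_eq_zero] at h1 h2 ⊢
          omega
    · rw [mem_C]
      refine ⟨fun x hx => ?_, fun e => ?_⟩
      · simp only [Pi.zero_apply]
        rw [hb'.1 x hx, hc'.1 x hx]; omega
      · have h1 := hb'.2 e
        have h2 := hc'.2 e
        have e1 := (Int.even_iff).1 (hev (G.s e))
        have e2 := (Int.even_iff).1 (hev (G.t e))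
        simp only [agree, Finset.mem_filter, Finset.mem_sdiff]
        by_cases he : e ∈ F
        · simp only [he, if_true, true_and] at h1 h2 ⊢
          have a1 := (abs_eq (by norm_num : (0:ℤ) ≤ 1)).1 h1
          have a2 := (abs_eq (by norm_num : (0:ℤ) ≤ 1)).1 h2
          split_ifs with hh
          · rw [abs_eq_zero]; omega
          · rw [abs_eq (by norm_num : (0:ℤ) ≤ 1)]; omega
        · simp only [he, if_false, false_and, abs_eq_zero] at h1 h2 ⊢
          omega
  · rintro ⟨F1, p, q⟩ hw
    simp only [Finset.mem_sigma, Finset.mem_powerset, Finset.mem_product] at hw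
    obtain ⟨hF, hp, hq⟩ := hw
    have hp' := (G.mem_C).1 hp
    have hq' := (G.mem_C).1 hq
    simp only [Finset.mem_product]
    have key : ∀ e, (|p (G.s e) - p (G.t e)| = if e ∈ F1 then 1 else 0) ∧
        (|q (G.s e) - q (G.t e)| = if e ∈ F \ F1 then 1 else 0) := fun e => ⟨hp'.2 e, hq'.2 e⟩
    refine ⟨?_, ?_⟩
    · rw [mem_C]
      refine ⟨fun x hx => ?_, fun e => ?_⟩
      · simp only [Pi.add_apply, hp'.1 x hx, hq'.1 x hx, Pi.zero_apply]; ring
      · obtain ⟨h1, h2⟩ := key e
        simp only [Finset.mem_sdiff] at h2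
        simp only [Pi.add_apply]
        by_cases he : e ∈ F
        · by_cases he1 : e ∈ F1
          · simp only [he, he1, if_true, not_true, and_false, if_false, abs_eq_zero] at h1 h2 ⊢
            have a1 := (abs_eq (by norm_num : (0:ℤ) ≤ 1)).1 h1
            rw [abs_eq (by norm_num : (0:ℤ) ≤ 1)]; omega
          · simp only [he, he1, if_true, not_false_iff, and_true, if_false, abs_eq_zero] at h1 h2 ⊢
            have a1 := (abs_eq (by norm_num : (0:ℤ) ≤ 1)).1 h2
            rw [abs_eq (by norm_num : (0:ℤ) ≤ 1)]; omega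
        · have he1 : e ∉ F1 := fun h => he (hF h)
          simp only [he, he1, if_false, false_and, abs_eq_zero] at h1 h2 ⊢
          omega
    · rw [mem_C]
      refine ⟨fun x hx => ?_, fun e => ?_⟩
      · simp only [Pi.sub_apply, hp'.1 x hx, hq'.1 x hx, Pi.zero_apply]; ring
      · obtain ⟨h1, h2⟩ := key e
        simp only [Finset.mem_sdiff] at h2
        simp only [Pi.sub_apply]
        by_cases he : e ∈ F
        · by_cases he1 : e ∈ F1
          · simp only [he, he1, if_true, not_true, and_false, if_false, abs_eq_zero] at h1 h2 ⊢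
            have a1 := (abs_eq (by norm_num : (0:ℤ) ≤ 1)).1 h1
            rw [abs_eq (by norm_num : (0:ℤ) ≤ 1)]; omega
          · simp only [he, he1, if_true, not_false_iff, and_true, if_false, abs_eq_zero] at h1 h2 ⊢
            have a1 := (abs_eq (by norm_num : (0:ℤ) ≤ 1)).1 h2
            rw [abs_eq (by norm_num : (0:ℤ) ≤ 1)]; omega
        · have he1 : e ∉ F1 := fun h => he (hF h)
          simp only [he, he1, if_false, false_and, abs_eq_zero] at h1 h2 ⊢
          omega
  · rintro ⟨b, c⟩ hw
    simp only [Finset.mem_product] at hw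
    obtain ⟨hb, hc⟩ := hw
    have hev := fun x => G.even_sub hb hc x
    ext x
    · have e1 := (Int.even_iff).1 (hev x)
      simp only [Pi.add_apply]; omega
    · have e1 := (Int.even_iff).1 (hev x)
      simp only [Pi.sub_apply]; omega
  · rintro ⟨F1, p, q⟩ hw
    simp only [Finset.mem_sigma, Finset.mem_powerset, Finset.mem_product] at hw
    obtain ⟨hF, hp, hq⟩ := hw
    have hp' := (G.mem_C).1 hp
    have hq' := (G.mem_C).1 hq
    have e1 : (fun x => ((p + q) x + (p - q) x) / 2) = p := by
      funext x; simp only [Pi.add_apply, Pi.sub_apply]; omega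
    have e2 : (fun x => ((p + q) x - (p - q) x) / 2) = q := by
      funext x; simp only [Pi.add_apply, Pi.sub_apply]; omega
    have e3 : G.agree F (p + q) (p - q) = F1 := by
      ext e
      simp only [agree, Finset.mem_filter, Pi.add_apply, Pi.sub_apply]
      have h1 := hp'.2 e
      have h2 := hq'.2 e
      simp only [Finset.mem_sdiff] at h2
      constructor
      · rintro ⟨he, hh⟩
        by_contra he1
        simp only [he, he1, not_false_iff, and_true, if_true] at h2
        have a1 := (abs_eq (by norm_num : (0:ℤ) ≤ 1)).1 h2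
        omega
      · intro he1
        have he := hF he1
        simp only [he, he1, not_true, and_false, if_false, abs_eq_zero] at h2
        exact ⟨he, by omega⟩
    simp only [e1, e2, e3]
  · rintro ⟨b, c⟩ hw
    simp only [Finset.mem_product] at hw
    obtain ⟨hb, hc⟩ := hw
    have hev := fun x => G.even_sub hb hc x
    simp only
    congr 1
    · funext x
      have e1 := (Int.even_iff).1 (hev x)
      simp only [Pi.add_apply]; omega
    · funext x
      have e1 := (Int.even_iff).1 (hev x)
      simp only [Pi.sub_apply]; omega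

end Net

end Pool.Agent.Helper909_ice
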