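import Mathlib

/-!
Integrals for the uniform law on a finite set.
-/

namespace Pool.Agent.Helper909_ice

open MeasureTheory ProbabilityTheory

variable {Ω : Type*} [MeasurableSpace Ω] [MeasurableSingletonClass Ω]

lemma integrable_unif {E : Type*} [NormedAddCommGroup E] [NormedSpace ℝ E]
    (s : Finset Ω) (hs : s.Nonempty) (f : Ω → E) :
    Integrable f (uniformOn (s : Set Ω)) := by
  haveI : IsProbabilityMeasure (uniformOn (s : Set Ω)) :=
    isProbabilityMeasure_uniformOn s.finite_toSet (by simpa using hs)
  have h1 : IntegrableOn f (s : Set Ω) (uniformOn (s : Set Ω)) := IntegrableOn.finset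
  have h2 : (uniformOn (s : Set Ω)).restrict (s : Set Ω) = uniformOn (s : Set Ω) :=
    Measure.restrict_eq_self_of_ae_mem (ae_cond_mem s.measurableSet)
  rw [IntegrableOn, h2] at h1
  exact h1

lemma integral_unif {E : Type*} [NormedAddCommGroup E] [NormedSpace ℝ E] [CompleteSpace E]
    (s : Finset Ω) (hs : s.Nonempty) (f : Ω → E) :
    ∫ x, f x ∂(uniformOn (s : Set Ω)) = (s.card : ℝ)⁻¹ • ∑ x ∈ s, f x := by
  classical
  haveI : IsProbabilityMeasure (uniformOn (s : Set Ω)) :=
    isProbabilityMeasure_uniformOn s.finite_toSet (by simpa using hs)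
  have h1 : IntegrableOn f (s : Set Ω) (uniformOn (s : Set Ω)) := IntegrableOn.finset
  have h2 : (uniformOn (s : Set Ω)).restrict (s : Set Ω) = uniformOn (s : Set Ω) :=
    Measure.restrict_eq_self_of_ae_mem (ae_cond_mem s.measurableSet)
  rw [← h2, setIntegral_finset s h1, Finset.smul_sum]
  refine Finset.sum_congr rfl (fun x hx => ?_)
  congr 1
  have h3 : uniformOn (s : Set Ω) ({x} : Set Ω) = (s.card : ENNReal)⁻¹ := by
    have h4 := uniformOn_apply_finset (s := s) (t := {x})
    rw [Finset.coe_singleton] at h4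
    rw [h4, Finset.inter_singleton_of_mem hx]
    simp
  rw [Measure.real, h3]
  simp

end Pool.Agent.Helper909_ice
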